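import Pool.Agent.Run7.h802.FH.Iface2

/-! Piece FAC of project FH (helper802): factorization of a form over `ℚ`. -/

set_option autoImplicit false

namespace Pool.Agent.Run7.h580.FH

open MvPolynomial Pool.Agent.Run7.h802.FH

/-- factors of homogeneous polynomials are homogeneous (the proof is that of
`Pool.Agent.R366.NF.homog_of_dvd`) -/
theorem homog_of_dvd {σ k : Type*} [Field k] [Finite σ] {F G : MvPolynomial σ k} {n : ℕ}
    (hF : F.IsHomogeneous n) (hF0 : F ≠ 0) (h : G ∣ F) : G.IsHomogeneous G.totalDegree := by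
  obtain ⟨K, rfl⟩ := h
  have hG0 : G ≠ 0 := left_ne_zero_of_mul hF0
  have hK0 : K ≠ 0 := right_ne_zero_of_mul hF0
  have hle : ∀ P : MvPolynomial σ k, P ≠ 0 → (P : MvPowerSeries σ k).order ≤ P.totalDegree := by
    intro P hP
    obtain ⟨d, hd⟩ := MvPolynomial.ne_zero_iff.1 hP
    have h1 : (P : MvPowerSeries σ k).order ≤ (d.degree : ℕ∞) :=
      MvPowerSeries.order_le (by simpa using hd)
    refine h1.trans ?_
    have h2 : d.degree ≤ P.totalDegree := by
      have := MvPolynomial.le_totalDegree (p := P) (s := d) (MvPolynomial.mem_support_iff.2 hd)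
      simpa [Finsupp.degree_apply, Finsupp.sum] using this
    exact_mod_cast h2
  have hmul : ((G * K : MvPolynomial σ k) : MvPowerSeries σ k).order =
      (G : MvPowerSeries σ k).order + (K : MvPowerSeries σ k).order := by
    rw [MvPolynomial.coe_mul, MvPowerSeries.order_mul]
  have hFo : (n : ℕ∞) ≤ ((G * K : MvPolynomial σ k) : MvPowerSeries σ k).order := by
    apply MvPowerSeries.nat_le_order
    intro d hd
    rw [MvPolynomial.coeff_coe]
    by_contra hne
    have := hF hne
    have h' : d.degree = n := by rw [← this, Finsupp.degree_eq_weight_one]; rfl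
    omega
  have hT : (G * K).totalDegree = n := hF.totalDegree hF0
  rw [MvPolynomial.totalDegree_mul_of_isDomain hG0 hK0] at hT
  have hGo := hle G hG0
  have hKo := hle K hK0
  rw [hmul] at hFo
  intro d hd
  have h1 : (G : MvPowerSeries σ k).order ≤ (d.degree : ℕ∞) :=
      MvPowerSeries.order_le (by simpa using hd)
  have h2 : d.degree ≤ G.totalDegree := by
      have := MvPolynomial.le_totalDegree (p := G) (s := d) (MvPolynomial.mem_support_iff.2 hd)
      simpa [Finsupp.degree_apply, Finsupp.sum] using this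
  have h3 : (n : ℕ∞) ≤ (d.degree : ℕ∞) + (K.totalDegree : ℕ∞) := hFo.trans (add_le_add h1 hKo)
  have h4 : n ≤ d.degree + K.totalDegree := by exact_mod_cast h3
  have h5 : d.degree = G.totalDegree := by omega
  rw [← h5, Finsupp.degree_eq_weight_one]
  rfl

variable {σ : Type*}

lemma unit_eq_C {u : MvPolynomial σ ℚ} (hu : IsUnit u) : ∃ c : ℚ, u = C c := by
  obtain ⟨c, _, hc⟩ := MvPolynomial.isUnit_iff_eq_C_of_isReduced.1 hu
  exact ⟨c, hc⟩

lemma totalDegree_eq_of_associated {p q : MvPolynomial σ ℚ} (hp : p ≠ 0) (h : Associated p q) :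
    p.totalDegree = q.totalDegree := by
  obtain ⟨u, rfl⟩ := h
  rw [MvPolynomial.totalDegree_mul_of_isDomain hp u.ne_zero]
  obtain ⟨c, hc⟩ := unit_eq_C u.isUnit
  rw [hc, totalDegree_C, add_zero]

lemma one_le_totalDegree {p : MvPolynomial σ ℚ} (hp : Irreducible p) : 1 ≤ p.totalDegree := by
  by_contra h
  have h0 : p.totalDegree = 0 := by omega
  have h1 := MvPolynomial.totalDegree_eq_zero_iff_eq_C.1 h0
  apply hp.not_isUnit
  rw [h1]
  refine IsUnit.map C (isUnit_iff_ne_zero.mpr ?_)
  intro h2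
  rw [h2, C_0] at h1
  exact hp.ne_zero h1

lemma prod_form {A L : MvPolynomial σ ℚ} (Q : MvPolynomial σ ℚ) : Q ≠ 0 →
    (∀ p, Irreducible p → p ∣ Q → Associated p A ∨ Associated p L) →
    ∃ (c : ℚ) (a k : ℕ), Q = C c * A ^ a * L ^ k := by
  induction Q using UniqueFactorizationMonoid.induction_on_prime with
  | h₁ => intro h; exact absurd rfl h
  | h₂ x hx =>
    intro _ _
    obtain ⟨c, hc⟩ := unit_eq_C hx
    exact ⟨c, 0, 0, by simp [hc]⟩
  | h₃ a p ha hp ih =>
    intro _ h
    obtain ⟨c, i, j, hc⟩ := ih ha fun q hq hqa => h q hq (hqa.mul_left p)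
    rcases h p hp.irreducible (dvd_mul_right p a) with h1 | h1
    · obtain ⟨u, hu⟩ := h1.symm
      obtain ⟨e, he⟩ := unit_eq_C u.isUnit
      refine ⟨e * c, i + 1, j, ?_⟩
      rw [← hu, he, C_mul, pow_succ]
      nth_rewrite 1 [hc]
      ring
    · obtain ⟨u, hu⟩ := h1.symm
      obtain ⟨e, he⟩ := unit_eq_C u.isUnit
      refine ⟨e * c, i, j + 1, ?_⟩
      rw [← hu, he, C_mul, pow_succ]
      nth_rewrite 1 [hc]
      ring

theorem t_FAC : S_FAC := by
  intro N P D hP0 hP
  by_cases h1 : ∃ p, Irreducible p ∧ p ∣ P ∧ 2 ≤ p.totalDegree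
  · obtain ⟨p, hp, hpP, hp2⟩ := h1
    refine Or.inl ⟨1, fun _ => p, fun _ => p.totalDegree, fun _ => homog_of_dvd hP hP0 hpP,
      fun _ => hp, fun i j hij => absurd (Subsingleton.elim i j) hij, fun _ hass => ?_, ?_, ?_⟩
    · have h2 := totalDegree_eq_of_associated hp.ne_zero hass
      rw [totalDegree_X] at h2
      omega
    · simpa using hp2
    · simpa using hpP
  by_cases h2 : ∃ p q, Irreducible p ∧ Irreducible q ∧ p ∣ P ∧ q ∣ P ∧ ¬ Associated p q ∧
      ¬ Associated p (X 0) ∧ ¬ Associated q (X 0)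
  · obtain ⟨p, q, hp, hq, hpP, hqP, hpq, hpX, hqX⟩ := h2
    refine Or.inl ⟨2, ![p, q], ![p.totalDegree, q.totalDegree], ?_, ?_, ?_, ?_, ?_, ?_⟩
    · intro j
      fin_cases j
      · exact homog_of_dvd hP hP0 hpP
      · exact homog_of_dvd hP hP0 hqP
    · intro j
      fin_cases j
      · exact hp
      · exact hq
    · intro i j hij
      fin_cases i <;> fin_cases j
      · exact absurd rfl hij
      · exact hpq
      · exact fun h => hpq h.symm
      · exact absurd rfl hij
    · intro j
      fin_cases j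
      · exact hpX
      · exact hqX
    · rw [Fin.sum_univ_two]
      have h3 := one_le_totalDegree hp
      have h4 := one_le_totalDegree hq
      simp only [Matrix.cons_val_zero, Matrix.cons_val_one]
      omega
    · rw [Fin.prod_univ_two]
      change p * q ∣ P
      obtain ⟨P', rfl⟩ := hqP
      rcases hp.prime.dvd_or_dvd hpP with h5 | h5
      · exact absurd (hp.associated_of_dvd hq h5) hpq
      · rw [mul_comm p q]
        exact mul_dvd_mul_left q h5
  right
  by_cases h3 : ∃ p, Irreducible p ∧ p ∣ P ∧ ¬ Associated p (X 0)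
  · obtain ⟨p, hp, hpP, hpX⟩ := h3
    have h4 : p.totalDegree = 1 := by
      have h5 := one_le_totalDegree hp
      have h6 : ¬ 2 ≤ p.totalDegree := fun h => h1 ⟨p, hp, hpP, h⟩
      omega
    obtain ⟨c, a, k, h⟩ := prod_form (A := X 0) (L := p) P hP0 fun q hq hqP => by
      by_contra hcon
      rw [not_or] at hcon
      exact h2 ⟨p, q, hp, hq, hpP, hqP, fun h => hcon.2 h.symm, hpX, hcon.1⟩
    refine ⟨p, c, a, k, ?_, h⟩
    have h7 := homog_of_dvd hP hP0 hpP
    rwa [h4] at h7
  · obtain ⟨c, a, k, h⟩ := prod_form (A := X 0) (L := X 0) P hP0 fun q hq hqP => by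
      by_contra hcon
      rw [not_or] at hcon
      exact h3 ⟨q, hq, hqP, hcon.1⟩
    exact ⟨X 0, c, a, k, isHomogeneous_X _ _, h⟩

end Pool.Agent.Run7.h580.FH
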