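import Pool.Agent.Run7.h802.FH.Iface2

/-! Piece CLR of project FH (helper802): clearing denominators in a factorization over `ℚ`. -/

set_option autoImplicit false

namespace Pool.Agent.Run7.h580.FH

open MvPolynomial Pool.Agent.Run7.h802.FH

lemma exists_nat_mul {n : ℕ} (q : MvPolynomial (Fin n) ℚ) :
    ∃ (N : ℕ) (p : MvPolynomial (Fin n) ℤ), N ≠ 0 ∧
      map (Int.castRingHom ℚ) p = C (N : ℚ) * q := by
  let _ : Algebra (MvPolynomial (Fin n) ℤ) (MvPolynomial (Fin n) ℚ) := algebraMvPolynomial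
  have hloc : IsLocalization ((nonZeroDivisors ℤ).map (C (σ := Fin n)))
    (MvPolynomial (Fin n) ℚ) := MvPolynomial.isLocalization (nonZeroDivisors ℤ) ℚ
  obtain ⟨⟨g₁, ⟨m, hm⟩⟩, hgm⟩ := IsLocalization.surj
    ((nonZeroDivisors ℤ).map (C (σ := Fin n))) q
  obtain ⟨N, hN, rfl⟩ := Submonoid.mem_map.mp hm
  have h1 : map (Int.castRingHom ℚ) g₁ = q * map (Int.castRingHom ℚ) (C N) := hgm.symm
  refine ⟨N.natAbs, C (Int.sign N) * g₁, Int.natAbs_ne_zero.2 (nonZeroDivisors.ne_zero hN), ?_⟩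
  rw [map_mul, h1, MvPolynomial.map_C, MvPolynomial.map_C, mul_comm q, ← mul_assoc, ← C_mul,
    ← map_mul, Int.sign_mul_self_eq_abs, Int.abs_eq_natAbs]
  simp

theorem t_CLR : S_CLR := by
  intro N P r f k hf hf0 hdvd
  obtain ⟨w, hw⟩ := hdvd
  choose n F hn hF using fun j => exists_nat_mul (f j)
  obtain ⟨m, W, hm, hW⟩ := exists_nat_mul w
  have hinj : Function.Injective (map (σ := Fin (N + 1)) (Int.castRingHom ℚ)) :=
    MvPolynomial.map_injective _ Int.cast_injective
  refine ⟨F, W, (∏ j, n j) * m, mul_ne_zero (Finset.prod_ne_zero_iff.2 fun j _ => hn j) hm,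
    fun j => ?_, fun j => ?_, ?_⟩
  · have h1 : (map (Int.castRingHom ℚ) (F j)).IsHomogeneous (k j) := by
      rw [hF j]
      have h2 := (isHomogeneous_C (Fin (N + 1)) (n j : ℚ)).mul (hf j)
      rwa [zero_add] at h2
    intro d hd
    apply h1
    rw [coeff_map]
    intro h0
    exact hd (by simpa using h0)
  · rw [hF j]
    have hu : IsUnit (C (n j : ℚ) : MvPolynomial (Fin (N + 1)) ℚ) :=
      IsUnit.map C (isUnit_iff_ne_zero.mpr (Nat.cast_ne_zero.2 (hn j)))
    exact (associated_isUnit_mul_left_iff hu).2 (Associated.refl _)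
  · apply hinj
    rw [map_mul, map_mul, map_prod, hW, hw, Finset.prod_congr rfl fun j _ => hF j,
      Finset.prod_mul_distrib, MvPolynomial.map_C]
    have h3 : (Int.castRingHom ℚ) (((∏ j, n j) * m : ℕ) : ℤ) = (∏ j, (n j : ℚ)) * (m : ℚ) := by
      push_cast
      simp
    rw [h3, C_mul, map_prod]
    ring

end Pool.Agent.Run7.h580.FH
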